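import Pool.Agent.H18.DV.Defs

/-!
# Chapter B, CP: the element prime to the characteristic; closure properties

`r` prime with `r = 0` in `F`, `d = r^a m`, `r ∤ m`: `c = X^(m f) - 1`, `Nm c = c^d = ((X^(m f) - 1)^(r^a))^m = (X^(d f) - 1)^m` (`sub_pow_char_pow`), `deg c = f m`. `Sm` is additive (product), contains `0` (`c = 1`).
-/

set_option autoImplicit false

open Polynomial

namespace Pool.Agent.H18.DV

section

variable (F L : Type) [Field F] [Finite F] [Field L] [Algebra F L] (d f : ℕ)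

theorem sm_zero : Sm F L d f 0 := by
  refine ⟨1, monic_one, ?_, ?_, 1, ?_⟩
  · rw [coeff_one_zero]
    exact one_ne_zero
  · rw [natDegree_one, mul_zero]
  · rw [Nm_one, Polynomial.map_one, map_one]

variable {F L d f} in
theorem sm_add {m n : ℕ} (hm : Sm F L d f m) (hn : Sm F L d f n) : Sm F L d f (m + n) := by
  obtain ⟨c, c1, c2, c3, a, ha⟩ := hm
  obtain ⟨c', c1', c2', c3', a', ha'⟩ := hn
  refine ⟨c * c', c1.mul c1', ?_, ?_, a * a', ?_⟩
  · rw [mul_coeff_zero]
    exact mul_ne_zero c2 c2'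
  · rw [c1.natDegree_mul c1', c3, c3', mul_add]
  · rw [Nm_mul, ha, ha', Polynomial.map_mul, map_mul]

theorem sm_p (hd : 0 < d) (hf : 0 < f) (r : ℕ) (hr : r.Prime) (hrF : (r : F) = 0) :
    ∃ n : ℕ, ¬ r ∣ n ∧ Sm F L d f n := by
  haveI : Fact r.Prime := ⟨hr⟩
  haveI hch : CharP F r := by
    obtain ⟨p, hp⟩ := CharP.exists F
    have h1 := (CharP.cast_eq_zero_iff F p r).1 hrF
    have h2 : p.Prime ∨ p = 0 := CharP.char_is_prime_or_zero F p
    rcases h2 with h2 | h2
    · rw [(Nat.prime_dvd_prime_iff_eq h2 hr).1 h1] at hp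
      exact hp
    · rw [h2] at h1
      exact absurd (Nat.eq_zero_of_zero_dvd h1) hr.ne_zero
  obtain ⟨a, m, hm, hdm⟩ := Nat.exists_eq_pow_mul_and_not_dvd hd.ne' r hr.ne_one
  have hm0 : 0 < m := Nat.pos_of_ne_zero fun h => hm (h ▸ dvd_zero r)
  have hmf : m * f ≠ 0 := (Nat.mul_pos hm0 hf).ne'
  refine ⟨m, hm, (X ^ (m * f) - 1 : F[X]).map (algebraMap F L), ?_, ?_, ?_, (X - 1) ^ m, ?_⟩
  · apply Monic.map
    have h1 := monic_X_pow_sub_C (1 : F) hmf
    rw [C_1] at h1
    exact h1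
  · rw [coeff_map, coeff_sub, coeff_X_pow, coeff_one_zero, if_neg (fun h => hmf h.symm), zero_sub,
      map_neg, map_one]
    exact neg_ne_zero.2 one_ne_zero
  · rw [natDegree_map]
    have h1 := natDegree_X_pow_sub_C (n := m * f) (r := (1 : F))
    rw [C_1] at h1
    rw [h1, mul_comm]
  · rw [Nm_base, ← map_expand]
    congr 1
    rw [hdm, pow_mul, sub_pow_char_pow, one_pow, ← pow_mul, map_pow, map_sub, expand_X, map_one]
    congr 3
    ring

end

end Pool.Agent.H18.DV
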