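import Pool.Agent.H18.DV.Fx

/-!
# Chapter B, RT: the roots of an irreducible polynomial over a finite field

`P ∈ F[X]` monic irreducible of degree `n`, `τ ∈ A` a root of `P`. Then `τ^(q^n) = τ` (`Irreducible.natDegree_dvd_iff_dvd_X_pow_card_pow_sub_X`) and `P = ∏_{m<n} (X - τ^(q^m))`: the right side `R` is a monic polynomial of degree `n`, the `q`-th powers of its coefficients are the coefficients of `∏_{m<n} (X - τ^(q^(m+1))) = R` (cyclic shift), so `R` comes from `F[X]` (`fix_poly`); `R(τ) = 0` (`n ≥ 1`), so the minimal polynomial `P` divides `R`; degrees and leading coefficients are equal.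
-/

set_option autoImplicit false

open Polynomial

namespace Pool.Agent.H18.DV

theorem root_pow (F A : Type) [Field F] [Finite F] [Field A] [Algebra F A] (P : F[X])
    (hi : Irreducible P) (τ : A) (hτ : aeval τ P = 0) :
    τ ^ (Nat.card F ^ P.natDegree) = τ := by
  obtain ⟨Q, hQ⟩ := hi.natDegree_dvd_iff_dvd_X_pow_card_pow_sub_X.1 (dvd_refl P.natDegree)
  have h1 := congrArg (aeval τ) hQ
  rw [map_mul, hτ, zero_mul, map_sub, map_pow, aeval_X] at h1
  exact sub_eq_zero.1 h1

private lemma prod_shift {M : Type} [CommRing M] [IsDomain M] (f : ℕ → M) (n : ℕ)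
    (h : f n = f 0) (h0 : f 0 ≠ 0) :
    ∏ m ∈ Finset.range n, f (m + 1) = ∏ m ∈ Finset.range n, f m := by
  have h1 := Finset.prod_range_succ f n
  rw [Finset.prod_range_succ', h] at h1
  exact mul_right_cancel₀ h0 h1

theorem root_prod (F A : Type) [Field F] [Finite F] [Field A] [Algebra F A] (P : F[X])
    (hP : P.Monic) (hi : Irreducible P) (τ : A) (hτ : aeval τ P = 0) :
    P.map (algebraMap F A) = ∏ m ∈ Finset.range P.natDegree, (X - C (τ ^ (Nat.card F ^ m))) := by
  have hn : 0 < P.natDegree := hi.natDegree_pos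
  have hpow := root_pow F A P hi τ hτ
  set R : A[X] := ∏ m ∈ Finset.range P.natDegree, (X - C (τ ^ (Nat.card F ^ m))) with hR
  have hRm : R.Monic := monic_prod_of_monic _ _ fun m _ => monic_X_sub_C _
  have hRd : R.natDegree = P.natDegree := by
    rw [hR, natDegree_prod_of_monic _ _ fun m _ => monic_X_sub_C _,
      Finset.sum_congr rfl fun m _ => natDegree_X_sub_C (τ ^ (Nat.card F ^ m)), Finset.sum_const,
      Finset.card_range, smul_eq_mul, mul_one]
  have hmap : R.map (fr F A 1) = R := by
    rw [hR, Polynomial.map_prod]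
    have h1 : ∀ m ∈ Finset.range P.natDegree,
        (X - C (τ ^ (Nat.card F ^ m))).map (fr F A 1) =
          (fun m => X - C (τ ^ (Nat.card F ^ m))) (m + 1) := by
      intro m _
      rw [Polynomial.map_sub, map_X, map_C, fr_apply, pow_one, ← pow_mul, ← pow_succ]
    rw [Finset.prod_congr rfl h1]
    apply prod_shift (fun m => X - C (τ ^ (Nat.card F ^ m)))
    · rw [hpow, pow_zero, pow_one]
    · exact X_sub_C_ne_zero _
  have hco : ∀ n, R.coeff n ^ Nat.card F = R.coeff n := by
    intro n
    have h1 : (R.map (fr F A 1)).coeff n = R.coeff n := by rw [hmap]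
    rwa [coeff_map, fr_apply, pow_one] at h1
  obtain ⟨R', hR'⟩ := fix_poly F A R hco
  have hR'm : R'.Monic := by
    apply Polynomial.monic_of_injective (algebraMap F A).injective
    rw [hR']
    exact hRm
  have hR'd : R'.natDegree = P.natDegree := by
    rw [← hRd, ← hR', hR'm.natDegree_map]
  have hroot : aeval τ R' = 0 := by
    rw [aeval_def, ← eval_map, hR', hR, eval_prod]
    apply Finset.prod_eq_zero (Finset.mem_range.2 hn)
    rw [pow_zero, pow_one, eval_sub, eval_X, eval_C, sub_self]
  have hdvd : P ∣ R' := by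
    rw [minpoly.eq_of_irreducible_of_monic hi hτ hP]
    exact minpoly.dvd F τ hroot
  have heq : R' = P := by
    apply Polynomial.eq_of_monic_of_dvd_of_natDegree_le hP hR'm hdvd
    rw [hR'd]
  rw [← heq, hR']

end Pool.Agent.H18.DV
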