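import Pool.Agent.H18.DV.Num
import Pool.Agent.H18.DV.Rt

/-!
# Chapter B, DEG: degrees of the irreducible factors

`r` prime, `r | d`, `r ≠ 0` in `F`, `e = d (ff q d)`: every irreducible factor `P` of `1 + X^e + .. + X^(e (r-1))` has degree divisible by `r^a`, the exact power of `r` in `d`. Proof: `τ` a root of `P` in `AdjoinRoot P` (or in the algebraic closure of `F`), `n = deg P ≥ 1`. Then `∑_{i<r} (τ^e)^i = 0`, so `(τ^e)^r = 1` and `τ^e ≠ 1` (as `r ≠ 0` in `F`); `τ ≠ 0`, `τ^(q^n) = τ` (`root_pow`), so `τ^(q^n - 1) = 1`. Let `o = orderOf τ`: `o | q^n - 1`, `o | e r`. If `r^a ∤ n` then `o | e` by `ord_dvd`, so `τ^e = 1`: contradiction.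
-/

set_option autoImplicit false

open Polynomial

namespace Pool.Agent.H18.DV

theorem deg_dvd (F : Type) [Field F] [Finite F] (d r : ℕ) (hd : 0 < d) (hr : r.Prime)
    (hrd : r ∣ d) (hrF : (r : F) ≠ 0) (P : F[X]) (hi : Irreducible P)
    (hP : P ∣ expand F (d * ff (Nat.card F) d) (∑ i ∈ Finset.range r, X ^ i)) :
    r ^ (d.factorization r) ∣ P.natDegree := by
  have : Fact (Irreducible P) := ⟨hi⟩
  set e : ℕ := d * ff (Nat.card F) d with he
  set τ : AdjoinRoot P := AdjoinRoot.root P with hτdef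
  have hτ : aeval τ P = 0 := by
    rw [aeval_def]
    exact AdjoinRoot.eval₂_root P
  have hx0 : ∑ i ∈ Finset.range r, (τ ^ e) ^ i = 0 := by
    obtain ⟨Q, hQ⟩ := hP
    have h1 := congrArg (aeval τ) hQ
    rw [map_mul, hτ, zero_mul, expand_aeval] at h1
    rw [map_sum] at h1
    rw [← h1]
    refine Finset.sum_congr rfl fun i _ => ?_
    rw [map_pow, aeval_X]
  have hxr : (τ ^ e) ^ r = 1 := by
    have h1 := geom_sum_mul (τ ^ e) r
    rw [hx0, zero_mul] at h1
    exact (sub_eq_zero.1 h1.symm)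
  have hx1 : τ ^ e ≠ 1 := by
    intro h1
    rw [h1] at hx0
    simp only [one_pow, Finset.sum_const, Finset.card_range, nsmul_eq_mul, mul_one] at hx0
    apply hrF
    apply (algebraMap F (AdjoinRoot P)).injective
    rw [map_natCast, map_zero]
    exact hx0
  have he0 : e ≠ 0 := by
    intro h0
    rw [h0, pow_zero] at hx1
    exact hx1 rfl
  have hτ0 : τ ≠ 0 := by
    intro h0
    rw [h0, zero_pow he0, zero_pow hr.pos.ne'] at hxr
    exact zero_ne_one hxr
  have hpow := root_pow F (AdjoinRoot P) P hi τ hτ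
  have hn : 0 < P.natDegree := hi.natDegree_pos
  have hq : 2 ≤ Nat.card F := Finite.one_lt_card
  have hq1 : 1 ≤ Nat.card F ^ P.natDegree := Nat.one_le_pow _ _ (by omega)
  have h1 : τ ^ (Nat.card F ^ P.natDegree - 1) = 1 := by
    have h2 : τ ^ (Nat.card F ^ P.natDegree - 1) * τ = 1 * τ := by
      rw [← pow_succ, Nat.sub_add_cancel hq1, hpow, one_mul]
    exact mul_right_cancel₀ hτ0 h2
  by_contra hcon
  apply hx1
  apply orderOf_dvd_iff_pow_eq_one.1
  exact ord_dvd (Nat.card F) d r P.natDegree (orderOf τ) hq hd hr hrd hn hcon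
    (orderOf_dvd_of_pow_eq_one h1)
    (orderOf_dvd_of_pow_eq_one (by rw [pow_mul]; exact hxr))

end Pool.Agent.H18.DV
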