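import Pool.Agent.H18.DV.Fac
import Pool.Agent.H18.DV.Deg

/-!
# Chapter B, CR: the element prime to `r` for `r` not the characteristic

`r` prime, `r | d`, `r ≠ 0` in `F`, `f = ff q d`, `e = d f`, `r^a` the exact power of `r` in `d`. Let `p_r` be a monic irreducible factor of `1 + X + .. + X^(r-1)` (degree `r - 1 ≥ 1`, constant coefficient `1`), so `1 ≤ deg p_r ≤ r - 1`, `p_r(0) ≠ 0`. `G = expand e p_r` is monic of degree `e deg p_r`; its irreducible factors have degree divisible by `r^a` (`deg_dvd`, `map_dvd (expand F e)`), so `G^(d/r^a) = Nm c` (`fac`), which is `expand e` of `p_r^(d/r^a)`. `d deg c = (d/r^a) e deg p_r` gives `deg c = f n`, `n = (d/r^a) deg p_r`, prime to `r`. `c(0) ≠ 0` by `Nm_coeff_zero`.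
-/

set_option autoImplicit false

open Polynomial

namespace Pool.Agent.H18.DV

theorem ff_pos (q d : ℕ) (hq : 2 ≤ q) (hd : 0 < d) : 0 < ff q d := by
  unfold ff
  apply Finset.prod_pos
  intro j _
  have h1 : 1 < q ^ ((j + 1) * d) := Nat.one_lt_pow (Nat.mul_pos (Nat.succ_pos j) hd).ne' hq
  omega

theorem sm_r (F L : Type) [Field F] [Finite F] [Field L] [Finite L] [Algebra F L] (d : ℕ)
    (hd : 0 < d) (hL : Nat.card L = Nat.card F ^ d) (r : ℕ) (hr : r.Prime) (hrd : r ∣ d)
    (hrF : (r : F) ≠ 0) : ∃ n : ℕ, ¬ r ∣ n ∧ Sm F L d (ff (Nat.card F) d) n := by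
  have hq : 2 ≤ Nat.card F := Finite.one_lt_card
  have hf : 0 < ff (Nat.card F) d := ff_pos _ _ hq hd
  have he : 0 < d * ff (Nat.card F) d := Nat.mul_pos hd hf
  -- the polynomial `1 + X + .. + X^(r-1)`
  have hQd : (∑ i ∈ Finset.range r, X ^ i : F[X]).natDegree + 1 = r := by
    have h1 : (X - 1 : F[X]) * ∑ i ∈ Finset.range r, X ^ i = X ^ r - 1 := mul_geom_sum X r
    have h2 : (X - 1 : F[X]).Monic := by
      have h := monic_X_sub_C (1 : F)
      rw [C_1] at h
      exact h
    have h3 : (X - 1 : F[X]).natDegree = 1 := by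
      have h := natDegree_X_sub_C (1 : F)
      rw [C_1] at h
      exact h
    have h4 : (∑ i ∈ Finset.range r, X ^ i : F[X]).Monic := monic_geom_sum_X hr.ne_zero
    have h5 : (X ^ r - 1 : F[X]).natDegree = r := by
      have h := natDegree_X_pow_sub_C (n := r) (r := (1 : F))
      rw [C_1] at h
      exact h
    have h6 := congrArg natDegree h1
    rw [h2.natDegree_mul h4, h3, h5] at h6
    omega
  have hQ0 : (∑ i ∈ Finset.range r, X ^ i : F[X]).eval 0 = 1 := by
    rw [eval_finset_sum]
    rw [Finset.sum_eq_single 0]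
    · rw [pow_zero, eval_one]
    · intro i _ hi
      rw [eval_pow, eval_X, zero_pow hi]
    · intro h
      exact absurd (Finset.mem_range.2 hr.pos) h
  have hQu : ¬ IsUnit (∑ i ∈ Finset.range r, X ^ i : F[X]) := by
    intro h
    have h1 := natDegree_eq_zero_of_isUnit h
    have h2 := hr.two_le
    omega
  have hQne : (∑ i ∈ Finset.range r, X ^ i : F[X]) ≠ 0 := by
    intro h
    rw [h, eval_zero] at hQ0
    exact zero_ne_one hQ0
  obtain ⟨p, pm, pi, pQ⟩ := exists_monic_irreducible_factor _ hQu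
  have hp0 : p.eval 0 ≠ 0 := by
    intro h
    obtain ⟨s, hs⟩ := pQ
    rw [hs, eval_mul, h, zero_mul] at hQ0
    exact zero_ne_one hQ0
  have hpd : p.natDegree ≤ (∑ i ∈ Finset.range r, X ^ i : F[X]).natDegree :=
    natDegree_le_of_dvd pQ hQne
  have hpd0 : 0 < p.natDegree := pi.natDegree_pos
  have hG : (expand F (d * ff (Nat.card F) d) p).Monic := pm.expand he
  obtain ⟨c, cm, hc⟩ := fac F L d hd hL (r ^ (d.factorization r)) (Nat.ordProj_dvd d r) _ hG
    (fun P hi hP => deg_dvd F d r hd hr hrd hrF P hi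
      (hP.trans (_root_.map_dvd (expand F (d * ff (Nat.card F) d)) pQ)))
  have hn : ¬ r ∣ d / r ^ (d.factorization r) * p.natDegree := by
    intro h
    rcases hr.dvd_mul.1 h with h | h
    · exact Nat.not_dvd_ordCompl hr hd.ne' h
    · have := Nat.le_of_dvd hpd0 h
      omega
  have hNm : Nm F d c = expand L (d * ff (Nat.card F) d)
      ((p ^ (d / r ^ (d.factorization r))).map (algebraMap F L)) := by
    rw [hc, ← map_pow, map_expand]
  refine ⟨d / r ^ (d.factorization r) * p.natDegree, hn, c, cm, ?_, ?_, _, hNm⟩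
  · apply Nm_coeff_zero F hd
    rw [hNm, coeff_zero_eq_eval_zero, expand_eval, zero_pow he.ne', eval_map, eval₂_at_zero,
      coeff_zero_eq_eval_zero, eval_pow]
    intro h
    rw [map_eq_zero] at h
    exact pow_ne_zero _ hp0 h
  · have h1 := Nm_natDegree F d c cm
    rw [hNm, natDegree_expand, natDegree_map, pm.natDegree_pow] at h1
    have h2 : d * (ff (Nat.card F) d * (d / r ^ (d.factorization r) * p.natDegree)) =
        d * c.natDegree := by
      rw [← h1]
      ring
    exact (Nat.eq_of_mul_eq_mul_left hd h2).symm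

end Pool.Agent.H18.DV
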