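import Mathlib

/-!
# THEOREM DV (MP_edeaa2), chapter B (existence of the data): definitions

`F` a finite field with `q = Nat.card F` elements. `fr F A i` is the ring homomorphism `x ↦ x^(q^i)` of a field `A` over `F`; `Nm F d c` is the product of the polynomials `c.map (fr F A i)`, `i < d` (the norm of `c` when `A / F` has degree `d`). `ff q d = ∏_{j=1..d} (q^(j d) - 1)`. `Sm F L d f n`: there is a monic `c ∈ L[X]`, `c(0) ≠ 0`, of degree `f n` such that the norm of `c` is a polynomial in `X^(d f)` with coefficients in `F`.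
-/

set_option autoImplicit false

open Polynomial

namespace Pool.Agent.H18.DV

section

variable (F A : Type) [Field F] [Finite F] [Field A] [Algebra F A]

/-- `x ↦ x^(q^i)` -/
noncomputable def fr (i : ℕ) : A →+* A :=
  letI := Fintype.ofFinite F
  ((FiniteField.frobeniusAlgHom F A ^ i : A →ₐ[F] A) : A →+* A)

theorem fr_apply (i : ℕ) (x : A) : fr F A i x = x ^ (Nat.card F ^ i) := by
  letI := Fintype.ofFinite F
  show (FiniteField.frobeniusAlgHom F A ^ i : A →ₐ[F] A) x = _
  induction i generalizing x with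
  | zero => simp
  | succ i ih =>
    rw [pow_succ, AlgHom.mul_apply, ih, FiniteField.frobeniusAlgHom_apply, ← pow_mul,
      Nat.card_eq_fintype_card, pow_succ']

variable {A}

/-- `∏_{i<d} c^(Frobenius^i)` -/
noncomputable def Nm (d : ℕ) (c : A[X]) : A[X] := ∏ i ∈ Finset.range d, c.map (fr F A i)

theorem Nm_one (d : ℕ) : Nm F d (1 : A[X]) = 1 := by
  unfold Nm
  exact Finset.prod_eq_one fun i _ => Polynomial.map_one _

theorem Nm_mul (d : ℕ) (b c : A[X]) : Nm F d (b * c) = Nm F d b * Nm F d c := by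
  unfold Nm
  rw [← Finset.prod_mul_distrib]
  exact Finset.prod_congr rfl fun i _ => Polynomial.map_mul _

theorem Nm_pow (d : ℕ) (b : A[X]) (k : ℕ) : Nm F d (b ^ k) = Nm F d b ^ k := by
  induction k with
  | zero => rw [pow_zero, pow_zero, Nm_one]
  | succ k ih => rw [pow_succ, pow_succ, Nm_mul, ih]

theorem Nm_natDegree (d : ℕ) (c : A[X]) (hc : c.Monic) : (Nm F d c).natDegree = d * c.natDegree := by
  unfold Nm
  rw [natDegree_prod_of_monic _ _ fun i _ => hc.map _]
  rw [Finset.sum_congr rfl fun i _ => hc.natDegree_map (fr F A i)]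
  rw [Finset.sum_const, Finset.card_range, smul_eq_mul]

/-- a polynomial over `F` is fixed -/
theorem Nm_base (d : ℕ) (a : F[X]) : Nm F d (a.map (algebraMap F A)) = (a ^ d).map (algebraMap F A) := by
  letI := Fintype.ofFinite F
  unfold Nm
  have h : ∀ i ∈ Finset.range d, (a.map (algebraMap F A)).map (fr F A i) = a.map (algebraMap F A) := by
    intro i _
    rw [Polynomial.map_map]
    congr 1
    ext x
    show (FiniteField.frobeniusAlgHom F A ^ i : A →ₐ[F] A) (algebraMap F A x) = _
    exact AlgHom.commutes _ _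
  rw [Finset.prod_congr rfl h, Finset.prod_const, Finset.card_range, Polynomial.map_pow]

/-- if the norm does not vanish at `0` then `c` does not -/
theorem Nm_coeff_zero {d : ℕ} (hd : 0 < d) (c : A[X]) (h : (Nm F d c).coeff 0 ≠ 0) : c.coeff 0 ≠ 0 := by
  intro h0
  apply h
  unfold Nm
  rw [coeff_zero_eq_eval_zero, eval_prod]
  apply Finset.prod_eq_zero (Finset.mem_range.2 hd)
  rw [← coeff_zero_eq_eval_zero, coeff_map, h0, map_zero]

end

/-- `∏_{j=1..d} (q^(j d) - 1)` -/
def ff (q d : ℕ) : ℕ := ∏ j ∈ Finset.range d, (q ^ ((j + 1) * d) - 1)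

/-- there is a monic `c ∈ L[X]` of degree `f n`, `c(0) ≠ 0`, with norm in `F[X^(d f)]` -/
def Sm (F L : Type) [Field F] [Finite F] [Field L] [Algebra F L] (d f n : ℕ) : Prop :=
  ∃ c : L[X], c.Monic ∧ c.coeff 0 ≠ 0 ∧ c.natDegree = f * n ∧
    ∃ a : F[X], Nm F d c = expand L (d * f) (a.map (algebraMap F L))

end Pool.Agent.H18.DV
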