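import Mathlib

/-!
# Chapter B, SUB: submonoids of `ℕ` modulo `d`

`S` contains `0`, `d`, is closed under addition, and for every prime `r | d` contains a number not divisible by `r`: then `S` contains some `n ≡ -1` mod `d`. Proof: `G = {z ∈ ℤ | ∃ n ∈ S, d ∣ z - n}` is a subgroup of `ℤ` (negative: `-n ≡ (d - 1) n`), `d ∈ G`, so `G = ℤ g` with `g | d`; a prime `r | g` would divide all elements of `S`; so `g = ±1`, `-1 ∈ G`: `d ∣ n + 1`.
-/

set_option autoImplicit false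

namespace Pool.Agent.H18.DV

theorem sub_mod (S : ℕ → Prop) (h0 : S 0) (ha : ∀ m n, S m → S n → S (m + n)) (d : ℕ)
    (hd : 0 < d) (h : ∀ r : ℕ, r.Prime → r ∣ d → ∃ n, ¬ r ∣ n ∧ S n) :
    ∃ n κ : ℕ, n + 1 = d * κ ∧ S n := by
  have hmul : ∀ k n, S n → S (k * n) := by
    intro k n hn
    induction k with
    | zero => rw [zero_mul]; exact h0
    | succ k ih => rw [Nat.succ_mul]; exact ha _ _ ih hn
  let G : AddSubgroup ℤ :=
    { carrier := {z : ℤ | ∃ n : ℕ, S n ∧ (d : ℤ) ∣ z - n}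
      zero_mem' := ⟨0, h0, by simp⟩
      add_mem' := by
        rintro a b ⟨m, hm, h1⟩ ⟨n, hn, h2⟩
        refine ⟨m + n, ha _ _ hm hn, ?_⟩
        have h3 := dvd_add h1 h2
        have e : a + b - ((m + n : ℕ) : ℤ) = a - m + (b - n) := by push_cast; ring
        rw [e]; exact h3
      neg_mem' := by
        rintro a ⟨n, hn, h1⟩
        refine ⟨(d - 1) * n, hmul _ _ hn, ?_⟩
        have hd1 : ((d - 1 : ℕ) : ℤ) = (d : ℤ) - 1 := by
          have : 1 ≤ d := hd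
          push_cast [Nat.cast_sub this]; ring
        have e : -a - (((d - 1) * n : ℕ) : ℤ) = -(a - n) - d * n := by
          rw [Nat.cast_mul, hd1]; ring
        rw [e]
        exact dvd_sub ((dvd_neg).2 h1) (dvd_mul_right _ _) }
  have hG : ∀ z : ℤ, z ∈ G ↔ ∃ n : ℕ, S n ∧ (d : ℤ) ∣ z - n := fun z => Iff.rfl
  obtain ⟨g, hg⟩ := Int.subgroup_cyclic G
  have hmem : ∀ z : ℤ, z ∈ G ↔ g ∣ z := by
    intro z
    rw [hg, AddSubgroup.mem_closure_singleton]
    constructor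
    · rintro ⟨k, hk⟩
      exact ⟨k, by rw [← hk, smul_eq_mul, mul_comm]⟩
    · rintro ⟨k, hk⟩
      exact ⟨k, by rw [hk, smul_eq_mul, mul_comm]⟩
  have hgd : g ∣ (d : ℤ) := (hmem _).1 ((hG _).2 ⟨0, h0, by simp⟩)
  have hg1 : g.natAbs = 1 := by
    by_contra hne
    obtain ⟨r, hr, hrg⟩ := Nat.exists_prime_and_dvd hne
    have hrd : r ∣ d := by
      have h1 : g.natAbs ∣ d := by
        have := Int.natAbs_dvd_natAbs.2 hgd
        simpa using this
      exact hrg.trans h1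
    obtain ⟨n, hn, hS⟩ := h r hr hrd
    apply hn
    have h1 : g ∣ (n : ℤ) := (hmem _).1 ((hG _).2 ⟨n, hS, by simp⟩)
    have h2 : g.natAbs ∣ n := by
      have := Int.natAbs_dvd_natAbs.2 h1
      simpa using this
    exact hrg.trans h2
  have h1 : g ∣ (-1 : ℤ) := by
    rw [← Int.natAbs_dvd_natAbs, hg1]
    exact one_dvd _
  obtain ⟨n, hn, κ, hκ⟩ := (hG _).1 ((hmem _).2 h1)
  have hκ' : ((n + 1 : ℕ) : ℤ) = d * (-κ) := by
    push_cast
    linarith
  have hdn : d ∣ n + 1 := by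
    have : (d : ℤ) ∣ ((n + 1 : ℕ) : ℤ) := ⟨-κ, hκ'⟩
    exact Int.natCast_dvd_natCast.1 this
  obtain ⟨k, hk⟩ := hdn
  exact ⟨n, k, hk, hn⟩

end Pool.Agent.H18.DV
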