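import Pool.Agent.H18.DV.Cr
import Pool.Agent.H18.DV.Cp
import Pool.Agent.H18.DV.Sub
import Pool.Agent.H82.DV.Defs

/-!
# Chapter B, EX: the data of the construction exist for every finite field and every degree

`L = FiniteField.Extension F p d`, `τ` the Frobenius automorphism, `θ` of trace `1`, `m = ff q d`, `b₁ = c` of degree `m n` with `n + 1 = d κ` (`sub_mod`, `sm_r`, `sm_p`), `Nm (X^m c) = X^(d m) expand (a) = expand (X a)`.
-/

set_option autoImplicit false

open Polynomial

namespace Pool.Agent.H18.DV

/-- the element `c` -/
theorem exists_c (F L : Type) [Field F] [Finite F] [Field L] [Finite L] [Algebra F L] (d : ℕ)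
    (hd : 0 < d) (hL : Nat.card L = Nat.card F ^ d) :
    ∃ n κ : ℕ, n + 1 = d * κ ∧ Sm F L d (ff (Nat.card F) d) n := by
  apply sub_mod _ (sm_zero F L d _) (fun m n hm hn => sm_add hm hn) d hd
  intro r hr hrd
  by_cases h : (r : F) = 0
  · exact sm_p F L d _ hd (ff_pos _ _ Finite.one_lt_card hd) r hr h
  · exact sm_r F L d hd hL r hr hrd h

theorem exists_data (F : Type) [Field F] [Finite F] (d : ℕ) (hd : 0 < d) :
    ∃ (L : Type) (_ : Field L) (_ : Algebra F L), Nonempty (Pool.Agent.H82.DV.Data F L d) := by
  obtain ⟨p, hp⟩ := CharP.exists F
  haveI : Fact p.Prime := ⟨CharP.char_is_prime F p⟩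
  haveI : NeZero d := ⟨hd.ne'⟩
  refine ⟨FiniteField.Extension F p d, inferInstance, inferInstance, ?_⟩
  have hcard : Nat.card (FiniteField.Extension F p d) = Nat.card F ^ d :=
    FiniteField.natCard_extension F p d
  have hfin : Module.finrank F (FiniteField.Extension F p d) = d :=
    FiniteField.finrank_extension F p d
  obtain ⟨n, κ, hn, c, cm, c0, cd, a, ha⟩ := exists_c F (FiniteField.Extension F p d) d hd hcard
  obtain ⟨θ, hθ⟩ := Algebra.trace_surjective F (FiniteField.Extension F p d) 1
  have hfpos : 0 < ff (Nat.card F) d := ff_pos _ _ Finite.one_lt_card hd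
  have hfr : ∀ i : ℕ, ((FiniteField.Extension.frob F p d ^ i :
      FiniteField.Extension F p d ≃ₐ[F] FiniteField.Extension F p d) :
      FiniteField.Extension F p d →+* FiniteField.Extension F p d) =
      fr F (FiniteField.Extension F p d) i := by
    intro i
    ext x
    rw [fr_apply]
    exact FiniteField.Extension.frob_iterate_apply F p d i
  refine ⟨{ ω := Module.finBasisOfFinrankEq F _ hfin
            τ := FiniteField.Extension.frob F p d
            hd := hd
            hτ := ?_
            fix := ?_
            θ := θ
            hθ := ?_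
            m := ff (Nat.card F) d
            hm := hfpos
            κ := κ
            b₁ := c
            hb₁ := c0
            mon := cm
            deg := ?_
            a := X * a
            ha := ?_ }⟩
  · apply AlgEquiv.ext
    intro x
    rw [FiniteField.Extension.frob_iterate_apply, ← hcard]
    letI := Fintype.ofFinite (FiniteField.Extension F p d)
    rw [Nat.card_eq_fintype_card, FiniteField.pow_card]
    rfl
  · intro x hx
    apply fix_mem
    rw [← FiniteField.Extension.frob_apply]
    exact hx
  · have h1 := FiniteField.algebraMap_trace_eq_sum_pow F (FiniteField.Extension F p d) θ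
    rw [hθ, map_one, hfin] at h1
    rw [h1]
    refine Finset.sum_congr rfl fun i _ => ?_
    exact FiniteField.Extension.frob_iterate_apply F p d i
  · calc ff (Nat.card F) d + c.natDegree = ff (Nat.card F) d * (n + 1) := by
          rw [cd]
          ring
      _ = d * ff (Nat.card F) d * κ := by
          rw [hn]
          ring
  · have h1 : ∏ i ∈ Finset.range d, (X ^ ff (Nat.card F) d * c).map
        ((FiniteField.Extension.frob F p d ^ i :
          FiniteField.Extension F p d ≃ₐ[F] FiniteField.Extension F p d) :
          FiniteField.Extension F p d →+* FiniteField.Extension F p d) =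
        Nm F d (X ^ ff (Nat.card F) d * c) := by
      unfold Nm
      refine Finset.prod_congr rfl fun i _ => ?_
      rw [hfr]
    have h2 : (X ^ ff (Nat.card F) d : (FiniteField.Extension F p d)[X]) =
        (X ^ ff (Nat.card F) d : F[X]).map (algebraMap F (FiniteField.Extension F p d)) := by
      rw [Polynomial.map_pow, map_X]
    rw [h1, Nm_mul, ha, h2, Nm_base, Polynomial.map_mul, map_mul, map_X, expand_X,
      Polynomial.map_pow, Polynomial.map_pow, map_X, ← pow_mul, mul_comm (ff (Nat.card F) d) d]

end Pool.Agent.H18.DV
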