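import Pool.Agent.H18.DV.Nrm

/-!
# Chapter B, FAC: powers of polynomials with all irreducible factors of degree divisible by `D`

`D | d`, `G ∈ F[X]` monic, all irreducible factors of `G` have degree divisible by `D`: then `G^(d/D) = Nm(c)`, `c ∈ L[X]` monic. Proof: strong induction on `deg G`. `deg G = 0`: `G = 1`, `c = 1`. Otherwise `G = P G'` with `P` monic irreducible (`Polynomial.exists_monic_irreducible_factor`); `g = gcd(deg P, d)` is divisible by `D`, so `d/D = (d/g) (g/D)` and `P^(d/D) = Nm(c₁^(g/D))` with `c₁` of `nrm`; multiply by the `c` of `G'`.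
-/

set_option autoImplicit false

open Polynomial

namespace Pool.Agent.H18.DV

theorem fac (F L : Type) [Field F] [Finite F] [Field L] [Finite L] [Algebra F L] (d : ℕ)
    (hd : 0 < d) (hL : Nat.card L = Nat.card F ^ d) (D : ℕ) (hD : D ∣ d) (G : F[X])
    (hG : G.Monic) (h : ∀ P : F[X], Irreducible P → P ∣ G → D ∣ P.natDegree) :
    ∃ c : L[X], c.Monic ∧ Nm F d c = (G ^ (d / D)).map (algebraMap F L) := by
  induction hn : G.natDegree using Nat.strong_induction_on generalizing G with
  | _ n ih =>
    rcases Nat.eq_zero_or_pos n with h0 | h0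
    · have h1 : G = 1 := hG.natDegree_eq_zero.1 (hn.trans h0)
      refine ⟨1, monic_one, ?_⟩
      rw [Nm_one, h1, one_pow, Polynomial.map_one]
    · have hu : ¬ IsUnit G := not_isUnit_of_natDegree_pos G (by omega)
      obtain ⟨P, hP, hPi, G', rfl⟩ := exists_monic_irreducible_factor G hu
      have hG' : G'.Monic := hP.of_mul_monic_left hG
      have hPpos : 0 < P.natDegree := hPi.natDegree_pos
      have hdeg : (P * G').natDegree = P.natDegree + G'.natDegree := hP.natDegree_mul hG'
      obtain ⟨c', hc', hN'⟩ := ih G'.natDegree (by omega) G' hG'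
        (fun Q hQ hQG => h Q hQ (hQG.mul_left P)) rfl
      obtain ⟨c1, hc1, hN1⟩ := nrm F L d hd hL P hP hPi
      obtain ⟨k, hk⟩ : D ∣ Nat.gcd P.natDegree d :=
        Nat.dvd_gcd (h P hPi (dvd_mul_right P G')) hD
      obtain ⟨m, hm⟩ : Nat.gcd P.natDegree d ∣ d := Nat.gcd_dvd_right _ _
      have hg0 : 0 < Nat.gcd P.natDegree d := Nat.gcd_pos_of_pos_right _ hd
      have hD0 : 0 < D := Nat.pos_of_dvd_of_pos hD hd
      have e1 : d / Nat.gcd P.natDegree d = m := Nat.div_eq_of_eq_mul_right hg0 hm
      have e2 : d / D = m * k := by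
        refine Nat.div_eq_of_eq_mul_right hD0 ?_
        calc d = Nat.gcd P.natDegree d * m := hm
          _ = D * k * m := by rw [hk]
          _ = D * (m * k) := by ring
      refine ⟨c1 ^ k * c', (hc1.pow k).mul hc', ?_⟩
      rw [Nm_mul, Nm_pow, hN1, hN', ← Polynomial.map_pow, ← Polynomial.map_mul, e1, e2,
        mul_pow, ← pow_mul]

end Pool.Agent.H18.DV
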