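import Pool.Agent.H18.DV.Defs

/-!
# Chapter B, FX: elements and polynomials fixed by Frobenius come from the finite field

`K` is a finite field with `Q` elements, `A` a field over `K`, `x ∈ A` with `x^Q = x`: then `x` is in the image of `K`. Proof: `X^Q - X` has at most `Q` roots in `A` and the images of the elements of `K` are `Q` roots.
-/

set_option autoImplicit false

open Polynomial

namespace Pool.Agent.H18.DV

theorem fix_mem (K A : Type) [Field K] [Finite K] [Field A] [Algebra K A] (x : A)
    (h : x ^ Nat.card K = x) : ∃ y : K, algebraMap K A y = x := by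
  classical
  letI := Fintype.ofFinite K
  have hc : Nat.card K = Fintype.card K := Nat.card_eq_fintype_card
  have h1 : 1 < Fintype.card K := Fintype.one_lt_card
  have h2 : (X ^ Fintype.card K - X : K[X]) = ∏ a : K, (X - C a) := by
    have h3 := FiniteField.roots_X_pow_card_sub_X K
    have h4 : (X ^ Fintype.card K - X : K[X]).Monic := by
      apply monic_X_pow_sub
      rw [degree_X]
      exact_mod_cast h1
    have h5 : (X ^ Fintype.card K - X : K[X]).natDegree = Fintype.card K :=
      FiniteField.X_pow_card_sub_X_natDegree_eq K h1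
    have h6 := prod_multiset_X_sub_C_of_monic_of_roots_card_eq h4 (by
      rw [h3, h5]
      rfl)
    rw [← h6, h3]
    rfl
  have h7 : (X ^ Fintype.card K - X : A[X]) = ∏ a : K, (X - C (algebraMap K A a)) := by
    have h8 := congrArg (Polynomial.map (algebraMap K A)) h2
    rw [Polynomial.map_sub, Polynomial.map_pow, map_X, Polynomial.map_prod] at h8
    rw [h8]
    refine Finset.prod_congr rfl fun a _ => ?_
    rw [Polynomial.map_sub, map_X, map_C]
  have h9 := congrArg (Polynomial.eval x) h7
  rw [eval_sub, eval_pow, eval_X, ← hc, h, sub_self, eval_prod] at h9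
  obtain ⟨a, -, ha⟩ := Finset.prod_eq_zero_iff.1 h9.symm
  rw [eval_sub, eval_X, eval_C] at ha
  exact ⟨a, (sub_eq_zero.1 ha).symm⟩

theorem fix_poly (K A : Type) [Field K] [Finite K] [Field A] [Algebra K A] (p : A[X])
    (h : ∀ n, p.coeff n ^ Nat.card K = p.coeff n) : ∃ p' : K[X], p'.map (algebraMap K A) = p := by
  have h1 : p ∈ Polynomial.lifts (algebraMap K A) := by
    rw [Polynomial.lifts_iff_coeff_lifts]
    intro n
    obtain ⟨y, hy⟩ := fix_mem K A (p.coeff n) (h n)
    exact ⟨y, hy⟩
  obtain ⟨p', hp'⟩ := (Polynomial.mem_lifts p).1 h1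
  exact ⟨p', hp'⟩

end Pool.Agent.H18.DV
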