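import Pool.Agent.H18.DV.Rt

/-!
# Chapter B, NRM: a power of an irreducible polynomial is a norm

`[L : F] = d` (`Nat.card L = q^d`), `P ∈ F[X]` monic irreducible, `n = deg P`, `g = gcd(n, d)`: `P^(d/g) = Nm(c)` with `c ∈ L[X]` monic. Proof: `Ω = AlgebraicClosure L` (an algebra over `F` too), `τ ∈ Ω` a root of `P`, `c = ∏_{j < n/g} (X - τ^(q^(d j))) ∈ Ω[X]`. The `q^d`-th power on the coefficients gives `∏_{j<n/g} (X - τ^(q^(d (j+1)))) = c`, because `τ^(q^(d n/g)) = τ` (`n | d n/g`); so `c` comes from `L[X]` (`fix_poly L Ω`). In `Ω[X]`: `Nm c = ∏_{i<d} ∏_{j<n/g} (X - τ^(q^(d j + i))) = ∏_{m < d (n/g)} (X - τ^(q^m)) = (∏_{m<n} (X - τ^(q^m)))^(d/g) = P^(d/g)` (`Finset.prod_range` over `i + d j`; periodicity `n`; `d (n/g) = n (d/g)`), and `map (algebraMap L Ω)` is injective.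
-/

set_option autoImplicit false

open Polynomial

namespace Pool.Agent.H18.DV

private lemma prod_shift {M : Type} [CommRing M] [IsDomain M] (f : ℕ → M) (n : ℕ)
    (h : f n = f 0) (h0 : f 0 ≠ 0) :
    ∏ m ∈ Finset.range n, f (m + 1) = ∏ m ∈ Finset.range n, f m := by
  have h1 := Finset.prod_range_succ f n
  rw [Finset.prod_range_succ', h] at h1
  exact mul_right_cancel₀ h0 h1

private lemma prod_regroup {M : Type} [CommRing M] (f : ℕ → M) (d N : ℕ) :
    ∏ i ∈ Finset.range d, ∏ j ∈ Finset.range N, f (d * j + i) = ∏ m ∈ Finset.range (d * N), f m := by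
  induction N with
  | zero =>
    rw [Nat.mul_zero, Finset.prod_range_zero]
    exact Finset.prod_eq_one fun i _ => Finset.prod_range_zero _
  | succ N ih =>
    rw [Nat.mul_succ, Finset.prod_range_add, ← ih, ← Finset.prod_mul_distrib]
    exact Finset.prod_congr rfl fun i _ => Finset.prod_range_succ _ _

private lemma prod_period {M : Type} [CommRing M] (f : ℕ → M) (n : ℕ)
    (h : ∀ k m, f (n * k + m) = f m) (K : ℕ) :
    ∏ m ∈ Finset.range (n * K), f m = (∏ m ∈ Finset.range n, f m) ^ K := by
  induction K with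
  | zero => rw [Nat.mul_zero, Finset.prod_range_zero, pow_zero]
  | succ K ih =>
    rw [Nat.mul_succ, Finset.prod_range_add, ih, pow_succ]
    congr 1
    exact Finset.prod_congr rfl fun m _ => h K m

private lemma root_pow_mul (F A : Type) [Field F] [Finite F] [Field A] [Algebra F A] (P : F[X])
    (hi : Irreducible P) (τ : A) (hτ : aeval τ P = 0) (k : ℕ) :
    τ ^ (Nat.card F ^ (P.natDegree * k)) = τ := by
  induction k with
  | zero => rw [Nat.mul_zero, pow_zero, pow_one]
  | succ k ih => rw [Nat.mul_succ, pow_add, pow_mul, ih, root_pow F A P hi τ hτ]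

private lemma Nm_map (F L A : Type) [Field F] [Finite F] [Field L] [Field A] [Algebra F L]
    [Algebra F A] [Algebra L A] (d : ℕ) (c : L[X]) :
    (Nm F d c).map (algebraMap L A) = Nm F d (c.map (algebraMap L A)) := by
  unfold Nm
  rw [Polynomial.map_prod]
  refine Finset.prod_congr rfl fun i _ => ?_
  rw [Polynomial.map_map, Polynomial.map_map]
  congr 1
  ext x
  rw [RingHom.comp_apply, RingHom.comp_apply, fr_apply, fr_apply, map_pow]

theorem nrm (F L : Type) [Field F] [Finite F] [Field L] [Finite L] [Algebra F L] (d : ℕ)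
    (hd : 0 < d) (hL : Nat.card L = Nat.card F ^ d) (P : F[X]) (hP : P.Monic)
    (hi : Irreducible P) :
    ∃ c : L[X], c.Monic ∧ Nm F d c = (P ^ (d / Nat.gcd P.natDegree d)).map (algebraMap F L) := by
  classical
  set E := AlgebraicClosure L with hE
  set n := P.natDegree with hn
  set g := Nat.gcd n d with hg
  set q := Nat.card F with hq
  have hn0 : 0 < n := hi.natDegree_pos
  have hg0 : 0 < g := Nat.gcd_pos_of_pos_left _ hn0
  obtain ⟨τ, hτ⟩ : ∃ τ : E, aeval τ P = 0 := by
    apply IsAlgClosed.exists_aeval_eq_zero E P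
    intro h
    rw [Polynomial.degree_eq_natDegree hi.ne_zero] at h
    rw [← hn] at h
    have h2 : n = 0 := by exact_mod_cast h
    omega
  have hper : ∀ k, τ ^ (q ^ (n * k)) = τ := fun k => root_pow_mul F E P hi τ hτ k
  have hdn : d * (n / g) = n * (d / g) := by
    rw [← Nat.mul_div_assoc _ (Nat.gcd_dvd_left n d), ← Nat.mul_div_assoc _ (Nat.gcd_dvd_right n d),
      Nat.mul_comm]
  set f : ℕ → E[X] := fun m => X - C (τ ^ (q ^ m)) with hf
  set c0 : E[X] := ∏ j ∈ Finset.range (n / g), f (d * j) with hc0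
  have hfi : ∀ j i, (f (d * j)).map (fr F E i) = f (d * j + i) := by
    intro j i
    simp only [hf]
    rw [Polynomial.map_sub, map_X, map_C, fr_apply, ← pow_mul, ← pow_add]
  have hc0m : c0.Monic := monic_prod_of_monic _ _ fun m _ => monic_X_sub_C _
  have hmap : c0.map (fr F E d) = c0 := by
    rw [hc0, Polynomial.map_prod]
    have h1 : ∀ j ∈ Finset.range (n / g),
        (f (d * j)).map (fr F E d) = (fun j => f (d * j)) (j + 1) := by
      intro j _
      rw [hfi]
      rfl
    rw [Finset.prod_congr rfl h1]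
    apply prod_shift (fun j => f (d * j))
    · show f (d * (n / g)) = f (d * 0)
      rw [hdn]
      simp only [hf]
      rw [hper, Nat.mul_zero, pow_zero, pow_one]
    · exact X_sub_C_ne_zero _
  have hco : ∀ k, c0.coeff k ^ Nat.card L = c0.coeff k := by
    intro k
    have h1 : (c0.map (fr F E d)).coeff k = c0.coeff k := by rw [hmap]
    rw [coeff_map, fr_apply] at h1
    rw [hL]
    exact h1
  obtain ⟨c, hc⟩ := fix_poly L E c0 hco
  refine ⟨c, ?_, ?_⟩
  · apply Polynomial.monic_of_injective (algebraMap L E).injective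
    rw [hc]
    exact hc0m
  · apply Polynomial.map_injective (algebraMap L E) (algebraMap L E).injective
    rw [Nm_map, hc, Polynomial.map_map, ← IsScalarTower.algebraMap_eq F L E, Polynomial.map_pow,
      root_prod F E P hP hi τ hτ]
    unfold Nm
    have h2 : ∀ i ∈ Finset.range d, c0.map (fr F E i) = ∏ j ∈ Finset.range (n / g), f (d * j + i) := by
      intro i _
      rw [hc0, Polynomial.map_prod]
      exact Finset.prod_congr rfl fun j _ => hfi j i
    rw [Finset.prod_congr rfl h2, prod_regroup f d (n / g), hdn]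
    apply prod_period f n
    intro k m
    simp only [hf]
    rw [pow_add, pow_mul, hper]

end Pool.Agent.H18.DV
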