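import Pool.Agent.H18.DV.Defs

/-!
# Chapter B, NUM: orders

`num`: `r` prime, `r | d`, `r^i | d`, `r ∤ n₁`, `r^j | q^(n₁ r^i) - 1`: then `r^j | ff q d`. Proof: `j = 0` is trivial; otherwise `r` does not divide `q`. Put `x = q^((r-1) r^i)`, so `r | x - 1` (Fermat), `r^j | q^(n₁ r^i) - 1 | x^n₁ - 1 = (x - 1)(1 + x + .. + x^(n₁ - 1))`, the second factor is `≡ n₁ ≢ 0` mod `r`, so `r^j | x - 1`. As `(r-1) r^i | (r-1) d`, `x - 1 | q^((r-1) d) - 1`, which is a factor of `ff q d` (`1 ≤ r - 1 ≤ d`).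

`ord_dvd`: `r^a` the exact power of `r` in `d`, `r^a ∤ n`, `o | q^n - 1`, `o | d (ff q d) r`: then `o | d (ff q d)`. Proof: `Nat.dvd_iff_prime_pow_dvd_dvd`; let `l^k | o`. If `l ≠ r` then `l^k` is coprime to `r`. If `l = r`: `n = n₁ r^i` with `r ∤ n₁`, `i < a` (`Nat.exists_eq_pow_mul_and_not_dvd`), `r^i | d`, and `num` gives `r^k | ff q d`.
-/

set_option autoImplicit false

namespace Pool.Agent.H18.DV

theorem num (q d r i n₁ j : ℕ) (hq : 2 ≤ q) (hd : 0 < d) (hr : r.Prime) (hrd : r ∣ d)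
    (hi : r ^ i ∣ d) (hn : ¬ r ∣ n₁) (h : r ^ j ∣ q ^ (n₁ * r ^ i) - 1) : r ^ j ∣ ff q d := by
  rcases Nat.eq_zero_or_pos j with rfl | hj
  · rw [pow_zero]
    exact one_dvd _
  have hn0 : n₁ ≠ 0 := fun h => hn (h ▸ dvd_zero r)
  have hri : 0 < r ^ i := pow_pos hr.pos i
  have hrd1 : r ∣ q ^ (n₁ * r ^ i) - 1 := (dvd_pow_self r hj.ne').trans h
  have hrq : ¬ r ∣ q := by
    intro hq'
    have h1 : r ∣ q ^ (n₁ * r ^ i) := dvd_pow hq' (Nat.mul_ne_zero hn0 hri.ne')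
    have h2 : 1 ≤ q ^ (n₁ * r ^ i) := Nat.one_le_pow _ _ (by omega)
    have h3 : r ∣ q ^ (n₁ * r ^ i) - (q ^ (n₁ * r ^ i) - 1) := Nat.dvd_sub h1 hrd1
    rw [Nat.sub_sub_self h2] at h3
    exact hr.one_lt.ne' (Nat.dvd_one.1 h3)
  have hcop : Nat.Coprime (q ^ r ^ i) r := by
    apply Nat.Coprime.pow_left
    exact ((Nat.Prime.coprime_iff_not_dvd hr).2 hrq).symm
  have hF : (q ^ r ^ i) ^ (r - 1) ≡ 1 [MOD r] := Nat.ModEq.pow_card_sub_one_eq_one hr hcop
  have hx1 : 1 ≤ (q ^ r ^ i) ^ (r - 1) := Nat.one_le_pow _ _ (Nat.pow_pos (by omega))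
  have hrx : r ∣ (q ^ r ^ i) ^ (r - 1) - 1 := (Nat.modEq_iff_dvd' hx1).1 hF.symm
  generalize hx : (q ^ r ^ i) ^ (r - 1) = x at hF hx1 hrx
  have hxn : r ^ j ∣ x ^ n₁ - 1 := by
    refine h.trans ?_
    have h1 : x ^ n₁ = (q ^ (n₁ * r ^ i)) ^ (r - 1) := by
      rw [← hx, ← pow_mul, ← pow_mul, ← pow_mul]
      congr 1
      ring
    rw [h1]
    have h2 := Nat.sub_dvd_pow_sub_pow (q ^ (n₁ * r ^ i)) 1 (r - 1)
    rw [one_pow] at h2
    exact h2
  have hfac : (x - 1) * ∑ k ∈ Finset.range n₁, x ^ k = x ^ n₁ - 1 := by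
    have h1 := Nat.geomSum_eq (m := x) (n := n₁)
    zify [hx1, Nat.one_le_pow n₁ x hx1]
    exact mul_geom_sum (x : ℤ) n₁
  have hcop2 : Nat.Coprime (r ^ j) (∑ k ∈ Finset.range n₁, x ^ k) := by
    apply Nat.Coprime.pow_left
    rw [Nat.Prime.coprime_iff_not_dvd hr]
    intro h1
    apply hn
    have h2 : ∑ k ∈ Finset.range n₁, x ^ k ≡ ∑ k ∈ Finset.range n₁, 1 [MOD r] := by
      have h3 : ∀ k : ℕ, x ^ k ≡ 1 [MOD r] := fun k => by
        have h4 := hF.pow k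
        rw [one_pow] at h4
        exact h4
      have h5 : ∀ s : Finset ℕ, ∑ k ∈ s, x ^ k ≡ ∑ k ∈ s, 1 [MOD r] := by
        intro s
        induction s using Finset.induction_on with
        | empty => exact Nat.ModEq.refl _
        | insert a s ha ih =>
          rw [Finset.sum_insert ha, Finset.sum_insert ha]
          exact (h3 a).add ih
      exact h5 _
    rw [Finset.sum_const, Finset.card_range, smul_eq_mul, mul_one] at h2
    exact (h2.dvd_iff dvd_rfl).1 h1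
  rw [← hfac] at hxn
  have hx2 : r ^ j ∣ x - 1 := hcop2.dvd_of_dvd_mul_right hxn
  refine hx2.trans ?_
  obtain ⟨t, ht⟩ := hi
  have h6 : x - 1 ∣ q ^ ((r - 2 + 1) * d) - 1 := by
    have h7 : q ^ ((r - 2 + 1) * d) = x ^ t := by
      have h8 : r - 2 + 1 = r - 1 := by
        have := hr.two_le
        omega
      rw [← hx, h8, ht, ← pow_mul, ← pow_mul]
      congr 1
      ring
    rw [h7]
    have h2 := Nat.sub_dvd_pow_sub_pow x 1 t
    rw [one_pow] at h2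
    exact h2
  refine h6.trans ?_
  unfold ff
  have hrd' : r ≤ d := Nat.le_of_dvd hd hrd
  have := hr.two_le
  exact Finset.dvd_prod_of_mem (fun j => q ^ ((j + 1) * d) - 1) (Finset.mem_range.2 (by omega))

theorem ord_dvd (q d r n o : ℕ) (hq : 2 ≤ q) (hd : 0 < d) (hr : r.Prime) (hrd : r ∣ d)
    (hn : 0 < n) (hrn : ¬ r ^ (d.factorization r) ∣ n) (h1 : o ∣ q ^ n - 1)
    (h2 : o ∣ d * ff q d * r) : o ∣ d * ff q d := by
  rw [Nat.dvd_iff_prime_pow_dvd_dvd]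
  intro l k hl hlk
  by_cases hlr : l = r
  · subst hlr
    obtain ⟨i, n₁, hn₁, hni⟩ := Nat.exists_eq_pow_mul_and_not_dvd hn.ne' l hl.ne_one
    have hi : i < d.factorization l := by
      by_contra h
      apply hrn
      rw [hni]
      exact (pow_dvd_pow l (not_lt.1 h)).trans (dvd_mul_right _ _)
    have hid : l ^ i ∣ d := (pow_dvd_pow l hi.le).trans (Nat.ordProj_dvd d l)
    have h3 : l ^ k ∣ q ^ (n₁ * l ^ i) - 1 := by
      rw [mul_comm n₁, ← hni]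
      exact hlk.trans h1
    exact (num q d l i n₁ k hq hd hl hrd hid hn₁ h3).trans (dvd_mul_left _ _)
  · have h3 : Nat.Coprime (l ^ k) r := by
      apply Nat.Coprime.pow_left
      rw [Nat.coprime_primes hl hr]
      exact hlr
    exact h3.dvd_of_dvd_mul_right (hlk.trans h2)

end Pool.Agent.H18.DV
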